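import Mathlib

open Filter Topology

namespace Pool.Agent.Results.MP_a2bddf_an.Ruziewicz

noncomputable section

/-- distance to the nearest integer -/
def psi (u : ℝ) : ℝ := |u - round u|

lemma psi_le_half (u : ℝ) : psi u ≤ 1 / 2 := abs_sub_round u

lemma psi_nonneg (u : ℝ) : 0 ≤ psi u := abs_nonneg _

lemma psi_le (u : ℝ) (n : ℤ) : psi u ≤ |u - n| := round_le u n

lemma psi_lip (u v : ℝ) : |psi u - psi v| ≤ |u - v| := by
  rw [abs_le]
  have h1 : psi u ≤ |u - v| + psi v := by
    calc psi u ≤ |u - round v| := psi_le u _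
      _ = |(u - v) + (v - round v)| := by congr 1; ring
      _ ≤ _ := abs_add_le _ _
  have h2 : psi v ≤ |u - v| + psi u := by
    calc psi v ≤ |v - round u| := psi_le v _
      _ = |(v - u) + (u - round u)| := by congr 1; ring
      _ ≤ |v - u| + |u - round u| := abs_add_le _ _
      _ = _ := by rw [abs_sub_comm]; rfl
  constructor <;> linarith

lemma psi_eq {x : ℝ} {m : ℤ} (h : |x - m| ≤ 1 / 2) : psi x = |x - m| := by
  apply le_antisymm (psi_le x m)
  by_cases hr : round x = m
  · rw [psi, hr]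
  · have h1 : (1 : ℝ) ≤ |(round x : ℝ) - m| := by
      have : (1 : ℤ) ≤ |round x - m| := Int.one_le_abs (sub_ne_zero.2 hr)
      exact_mod_cast this
    have h2 : |(round x : ℝ) - m| ≤ |x - m| + psi x := by
      calc |(round x : ℝ) - m| = |(x - m) + (-(x - round x))| := by congr 1; ring
        _ ≤ |x - m| + |-(x - round x)| := abs_add_le _ _
        _ = _ := by rw [abs_neg]; rfl
    linarith

lemma psi_shift (u : ℝ) : ∃ s : ℝ, |s| = 1 / 4 ∧ |psi (u + s) - psi u| = 1 / 4 := by
  set n := round u with hn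
  set r := u - n with hr
  have hb := abs_le.1 (abs_sub_round u)
  rw [← hn, ← hr] at hb
  have hu : psi u = |r| := by rw [hr, hn]; rfl
  have key : ∀ s : ℝ, |r + s| ≤ 1 / 2 → psi (u + s) = |r + s| := by
    intro s hs
    have e : u + s - n = r + s := by rw [hr]; ring
    rw [← e] at hs ⊢
    exact psi_eq hs
  rcases le_or_gt 0 r with h0 | h0
  · rcases le_or_gt r (1 / 4) with h1 | h1
    · refine ⟨1 / 4, by norm_num, ?_⟩
      rw [key _ (by rw [abs_le]; constructor <;> linarith), hu, abs_of_nonneg h0,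
        abs_of_nonneg (by linarith : (0 : ℝ) ≤ r + 1 / 4)]
      norm_num
    · refine ⟨-(1 / 4), by norm_num, ?_⟩
      rw [key _ (by rw [abs_le]; constructor <;> linarith), hu, abs_of_nonneg h0,
        abs_of_nonneg (by linarith : (0 : ℝ) ≤ r + -(1 / 4))]
      norm_num
  · rcases le_or_gt (-(1 / 4)) r with h1 | h1
    · refine ⟨-(1 / 4), by norm_num, ?_⟩
      rw [key _ (by rw [abs_le]; constructor <;> linarith), hu, abs_of_neg h0,
        abs_of_nonpos (by linarith : r + -(1 / 4) ≤ 0)]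
      norm_num
    · refine ⟨1 / 4, by norm_num, ?_⟩
      rw [key _ (by rw [abs_le]; constructor <;> linarith), hu, abs_of_neg h0,
        abs_of_nonpos (by linarith : r + 1 / 4 ≤ 0)]
      norm_num

/-- A gauge on `0 < |h| < δ`: positive, depending only on `|h|`, nondecreasing in `|h|`, and
tending to `0` as `h → 0`. -/
structure Gauge (δ : ℝ) (w : ℝ → ℝ) : Prop where
  pos : ∀ h, 0 < |h| → |h| < δ → 0 < w h
  even : ∀ h k, 0 < |h| → |h| < δ → |h| = |k| → w h = w k
  mono : ∀ h k, 0 < |h| → |h| ≤ |k| → |k| < δ → w h ≤ w k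
  lim : Tendsto w (𝓝[≠] 0) (𝓝 0)

/-- choice of a good scale -/
lemma exists_scale {δ : ℝ} (hδ : 0 < δ) {w φ : ℝ → ℝ} (hw : Gauge δ w)
    (hwl : Tendsto (fun h => w h / |h|) (𝓝[≠] 0) atTop)
    (hwφ : Tendsto (fun h => w h / φ h) (𝓝[≠] 0) atTop) (C η : ℝ) (hη : 0 < η) :
    ∃ t : ℝ, 0 < t ∧ t < η ∧ t < δ ∧ w t ≤ η ∧ C ≤ w t / t ∧ C ≤ w t / φ t ∧
      ∀ s, 0 < s → s ≤ t → w t / t ≤ 2 * (w s / s) := by
  have e1 := hwl.eventually_ge_atTop (max C 1)
  have e2 := hwφ.eventually_ge_atTop C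
  have e3 : ∀ᶠ h in 𝓝[≠] (0 : ℝ), w h < η := hw.lim.eventually_lt_const hη
  have e := e1.and (e2.and e3)
  rw [eventually_nhdsWithin_iff, Metric.eventually_nhds_iff] at e
  obtain ⟨ε, hε, H⟩ := e
  set T := min (ε / 2) (min (η / 2) (δ / 2)) with hT
  have hT0 : 0 < T := by positivity
  have hTε : T < ε := lt_of_le_of_lt (min_le_left _ _) (by linarith)
  have hTη : T < η := lt_of_le_of_lt ((min_le_right _ _).trans (min_le_left _ _)) (by linarith)
  have hTδ : T < δ := lt_of_le_of_lt ((min_le_right _ _).trans (min_le_right _ _)) (by linarith)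
  have H' : ∀ s, 0 < s → s ≤ T → max C 1 ≤ w s / s ∧ C ≤ w s / φ s ∧ w s < η := by
    intro s hs0 hsT
    have := H (y := s) (by rw [Real.dist_eq, sub_zero, abs_of_pos hs0]; linarith)
      (by simpa using hs0.ne')
    rwa [abs_of_pos hs0] at this
  set S : Set ℝ := (fun s => w s / s) '' Set.Ioc 0 T with hS
  have hSne : S.Nonempty := ⟨_, T, ⟨hT0, le_rfl⟩, rfl⟩
  have hSb : ∀ y ∈ S, (1 : ℝ) ≤ y := by
    rintro y ⟨s, ⟨hs0, hsT⟩, rfl⟩
    exact (le_max_right _ _).trans (H' s hs0 hsT).1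
  have hI1 : 1 ≤ sInf S := le_csInf hSne hSb
  have hbdd : BddBelow S := ⟨1, hSb⟩
  obtain ⟨y, ⟨t, ⟨ht0, htT⟩, rfl⟩, hlt⟩ := exists_lt_of_csInf_lt hSne
    (show sInf S < 2 * sInf S by linarith)
  refine ⟨t, ht0, by linarith, by linarith, (H' t ht0 htT).2.2.le,
    (le_max_left _ _).trans (H' t ht0 htT).1, (H' t ht0 htT).2.1, ?_⟩
  intro s hs0 hst
  have : sInf S ≤ w s / s := csInf_le hbdd ⟨s, ⟨hs0, hst.trans htT⟩, rfl⟩
  simp only at hlt
  linarith

/-- Ruziewicz's question: for every pair of gauges `w, φ` on `0 < |h| < δ` with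
`w(h)/|h| → ∞` and `w(h)/φ(h) → ∞` there is a function satisfying (1) and (2). -/
theorem result : ∀ (δ : ℝ) (w φ : ℝ → ℝ), 0 < δ → Gauge δ w → Gauge δ φ →
    Tendsto (fun h => w h / |h|) (𝓝[≠] 0) atTop →
    Tendsto (fun h => w h / φ h) (𝓝[≠] 0) atTop →
    ∃ f : ℝ → ℝ, (∀ x h : ℝ, 0 < |h| → |h| < δ → |f (x + h) - f x| < w h) ∧
      ∀ x : ℝ, limsup (fun h : ℝ => ENNReal.ofReal |(f (x + h) - f x) / φ h|) (𝓝[≠] 0) = ⊤ := by
  intro δ w φ hδ hw hφ hwl hwφ
  set ε : ℕ → ℝ := fun j => (1 / 16) * (1 / 2) ^ j with hε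
  have hε0 : ∀ j, 0 < ε j := fun j => by simp only [hε]; positivity
  -- one step of the recursion
  have step : ∀ (j : ℕ) (t : {t : ℝ // 0 < t ∧ t < δ}), ∃ t' : {t : ℝ // 0 < t ∧ t < δ},
      (t' : ℝ) < 1 / ((j : ℝ) + 1) ∧
      ε (j + 1) * w t' ≤ (1 / 16) * (ε j * w t) ∧ 16 * (ε j * w t / t) ≤ ε (j + 1) * w t' / t' ∧
      ((j : ℝ) + 1) / ε (j + 1) ≤ w t' / φ t' ∧
      ∀ s : ℝ, 0 < s → s ≤ t' → w t' / t' ≤ 2 * (w s / s) := by
    intro j t
    have hwt : 0 < w t := hw.pos t (by rw [abs_of_pos t.2.1]; exact t.2.1)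
      (by rw [abs_of_pos t.2.1]; exact t.2.2)
    obtain ⟨t', h0, h1, h2, h3, h4, h5, h6⟩ := exists_scale hδ hw hwl hwφ
      (max (16 * (ε j * w t / t) / ε (j + 1)) (((j : ℝ) + 1) / ε (j + 1)))
      (min (1 / ((j : ℝ) + 1)) ((1 / 16) * (ε j * w t) / ε (j + 1)))
      (lt_min (by positivity) (div_pos (by have := hε0 j; positivity) (hε0 _)))
    refine ⟨⟨t', h0, h2⟩, h1.trans_le (min_le_left _ _), ?_, ?_, (le_max_right _ _).trans h5, h6⟩
    · have := h3.trans (min_le_right _ _)
      rw [le_div_iff₀ (hε0 _)] at this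
      linarith
    · have := (le_max_left _ _).trans h4
      rw [div_le_iff₀ (hε0 _)] at this
      calc 16 * (ε j * w t / t) ≤ w t' / t' * ε (j + 1) := this
        _ = _ := by ring
  choose g hg using step
  obtain ⟨t0, ht00, -, ht0δ, -, -, -, ht06⟩ := exists_scale hδ hw hwl hwφ 0 1 one_pos
  let tt : ℕ → {t : ℝ // 0 < t ∧ t < δ} := fun j =>
    Nat.rec ⟨t0, ht00, ht0δ⟩ (fun j t => g j t) j
  set t : ℕ → ℝ := fun j => (tt j).1 with ht
  have hstep : ∀ j, t (j + 1) < 1 / ((j : ℝ) + 1) ∧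
      ε (j + 1) * w (t (j + 1)) ≤ (1 / 16) * (ε j * w (t j)) ∧
      16 * (ε j * w (t j) / t j) ≤ ε (j + 1) * w (t (j + 1)) / t (j + 1) ∧
      ((j : ℝ) + 1) / ε (j + 1) ≤ w (t (j + 1)) / φ (t (j + 1)) ∧
      ∀ s : ℝ, 0 < s → s ≤ t (j + 1) → w (t (j + 1)) / t (j + 1) ≤ 2 * (w s / s) :=
    fun j => hg j (tt j)
  have htpos : ∀ j, 0 < t j := fun j => (tt j).2.1
  have htδ : ∀ j, t j < δ := fun j => (tt j).2.2
  have hinf : ∀ j s, 0 < s → s ≤ t j → w (t j) / t j ≤ 2 * (w s / s) := by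
    intro j
    cases j with
    | zero => exact ht06
    | succ j => exact (hstep j).2.2.2.2
  have hwpos : ∀ j, 0 < w (t j) := fun j => hw.pos _ (by rw [abs_of_pos (htpos j)]; exact htpos j)
    (by rw [abs_of_pos (htpos j)]; exact htδ j)
  set A : ℕ → ℝ := fun j => ε j * w (t j) with hA
  set B : ℕ → ℝ := fun j => A j / t j with hB
  have hA0 : ∀ j, 0 < A j := fun j => mul_pos (hε0 j) (hwpos j)
  have hB0 : ∀ j, 0 < B j := fun j => div_pos (hA0 j) (htpos j)
  have hA1 : ∀ j, A (j + 1) ≤ (1 / 16) * A j := fun j => (hstep j).2.1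
  have hB1 : ∀ j, 16 * B j ≤ B (j + 1) := fun j => (hstep j).2.2.1
  have hAk : ∀ j k, A (j + k) ≤ A j * (1 / 16) ^ k := by
    intro j k
    induction k with
    | zero => simp
    | succ k ih =>
      have := hA1 (j + k)
      rw [← add_assoc, pow_succ]
      linarith
  have hBsum : ∀ j, ∑ i ∈ Finset.range j, B i ≤ B j / 15 := by
    intro j
    induction j with
    | zero => simpa using (div_pos (hB0 0) (by norm_num)).le
    | succ j ih =>
      rw [Finset.sum_range_succ]
      have := hB1 j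
      linarith
  -- the series
  set F : ℕ → ℝ → ℝ := fun j x => A j * psi (x / t j) with hF
  have hFs : ∀ x, Summable fun j => F j x := by
    intro x
    apply Summable.of_nonneg_of_le (g := fun j => F j x) (f := fun j => A 0 * (1 / 16 : ℝ) ^ j)
    · intro j; exact mul_nonneg (hA0 j).le (psi_nonneg _)
    · intro j
      have h1 := hAk 0 j
      rw [zero_add] at h1
      calc F j x ≤ A j * 1 := by
            apply mul_le_mul_of_nonneg_left _ (hA0 j).le
            exact (psi_le_half _).trans (by norm_num)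
        _ ≤ _ := by rw [mul_one]; exact h1
    · exact (summable_geometric_of_lt_one (by norm_num) (by norm_num)).mul_left _
  set f : ℝ → ℝ := fun x => ∑' j, F j x with hf
  have hdiff : ∀ x h, f (x + h) - f x = ∑' j, (F j (x + h) - F j x) := by
    intro x h
    rw [hf]
    exact ((hFs (x + h)).tsum_sub (hFs x)).symm
  have hds : ∀ x h, Summable fun j => F j (x + h) - F j x := fun x h =>
    (hFs (x + h)).sub (hFs x)
  have hd1 : ∀ j x h, |F j (x + h) - F j x| ≤ A j / 2 := by
    intro j x h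
    have h1 := psi_nonneg ((x + h) / t j)
    have h2 := psi_nonneg (x / t j)
    have h3 := psi_le_half ((x + h) / t j)
    have h4 := psi_le_half (x / t j)
    have e : F j (x + h) - F j x = A j * (psi ((x + h) / t j) - psi (x / t j)) := by
      simp only [hF]; ring
    rw [e, abs_mul, abs_of_pos (hA0 j)]
    have : |psi ((x + h) / t j) - psi (x / t j)| ≤ 1 / 2 := by
      rw [abs_le]; constructor <;> linarith
    calc A j * _ ≤ A j * (1 / 2) := mul_le_mul_of_nonneg_left this (hA0 j).le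
      _ = _ := by ring
  have hd2 : ∀ j x h, |F j (x + h) - F j x| ≤ B j * |h| := by
    intro j x h
    have e : F j (x + h) - F j x = A j * (psi ((x + h) / t j) - psi (x / t j)) := by
      simp only [hF]; ring
    rw [e, abs_mul, abs_of_pos (hA0 j)]
    have h1 := psi_lip ((x + h) / t j) (x / t j)
    have h2 : (x + h) / t j - x / t j = h / t j := by ring
    rw [h2, abs_div, abs_of_pos (htpos j)] at h1
    calc A j * _ ≤ A j * (|h| / t j) := mul_le_mul_of_nonneg_left h1 (hA0 j).le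
      _ = _ := by simp only [hB]; ring
  -- (1)
  have hone : ∀ x h : ℝ, 0 < |h| → |h| < δ → |f (x + h) - f x| < w h := by
    intro x h h0 h1
    have hwh := hw.pos h h0 h1
    have hterm : ∀ j, ‖F j (x + h) - F j x‖ ≤ (1 / 16) * (1 / 2) ^ j * (2 * w h) := by
      intro j
      rw [Real.norm_eq_abs]
      rcases le_or_gt |h| (t j) with h2 | h2
      · refine (hd2 j x h).trans ?_
        have h3 := hinf j |h| h0 h2
        have hw' : w |h| = w h := (hw.even h |h| h0 h1 (abs_abs h).symm).symm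
        rw [hw'] at h3
        calc B j * |h| = ε j * (w (t j) / t j) * |h| := by simp only [hB, hA]; ring
          _ ≤ ε j * (2 * (w h / |h|)) * |h| := by
              have := hε0 j
              gcongr
          _ = ε j * (2 * w h) := by field_simp
          _ = _ := rfl
      · refine (hd1 j x h).trans ?_
        have h3 := hw.mono (t j) h (by rw [abs_of_pos (htpos j)]; exact htpos j)
          (by rw [abs_of_pos (htpos j)]; exact h2.le) h1
        calc A j / 2 = ε j * (w (t j) / 2) := by simp only [hA]; ring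
          _ ≤ ε j * (2 * w h) := by
              apply mul_le_mul_of_nonneg_left _ (hε0 j).le
              linarith
          _ = _ := rfl
    have hsum : HasSum (fun j : ℕ => (1 / 16 : ℝ) * (1 / 2) ^ j * (2 * w h))
        ((1 / 16 : ℝ) * 2 * (2 * w h)) :=
      (hasSum_geometric_two.mul_left (1 / 16 : ℝ)).mul_right (2 * w h)
    have := tsum_of_norm_bounded hsum hterm
    rw [← hdiff, Real.norm_eq_abs] at this
    linarith
  refine ⟨f, hone, ?_⟩
  intro x
  -- lower bound at scale t j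
  have hlow : ∀ j, ∃ h : ℝ, |h| = t j / 4 ∧ A j / 8 ≤ |f (x + h) - f x| := by
    intro j
    obtain ⟨s, hs, hsψ⟩ := psi_shift (x / t j)
    refine ⟨s * t j, by rw [abs_mul, hs, abs_of_pos (htpos j)]; ring, ?_⟩
    set h := s * t j with hh
    have hhabs : |h| = t j / 4 := by rw [hh, abs_mul, hs, abs_of_pos (htpos j)]; ring
    have hj : |F j (x + h) - F j x| = A j / 4 := by
      have e : F j (x + h) - F j x = A j * (psi ((x + h) / t j) - psi (x / t j)) := by
        simp only [hF]; ring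
      have e2 : (x + h) / t j = x / t j + s := by
        rw [hh]; field_simp [(htpos j).ne']
      rw [e, e2, abs_mul, hsψ, abs_of_pos (hA0 j)]; ring
    have hlo : |∑ i ∈ Finset.range j, (F i (x + h) - F i x)| ≤ A j / 60 := by
      calc |∑ i ∈ Finset.range j, (F i (x + h) - F i x)|
          ≤ ∑ i ∈ Finset.range j, |F i (x + h) - F i x| := Finset.abs_sum_le_sum_abs _ _
        _ ≤ ∑ i ∈ Finset.range j, B i * |h| := Finset.sum_le_sum fun i _ => hd2 i x h
        _ = (∑ i ∈ Finset.range j, B i) * |h| := (Finset.sum_mul _ _ _).symm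
        _ ≤ B j / 15 * |h| := mul_le_mul_of_nonneg_right (hBsum j) (abs_nonneg h)
        _ = A j / 60 := by
            rw [hhabs]; simp only [hB]; have := (htpos j).ne'; field_simp; ring
    have hhi : |∑' i, (F (i + (j + 1)) (x + h) - F (i + (j + 1)) x)| ≤ A j / 30 := by
      have hterm : ∀ i, ‖F (i + (j + 1)) (x + h) - F (i + (j + 1)) x‖ ≤
          A j / 32 * (1 / 16) ^ i := by
        intro i
        rw [Real.norm_eq_abs]
        refine (hd1 _ x h).trans ?_
        have := hAk j (i + 1)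
        rw [show j + (i + 1) = i + (j + 1) by ring, pow_succ] at this
        linarith
      have hgeo : HasSum (fun i : ℕ => A j / 32 * (1 / 16 : ℝ) ^ i) (A j / 32 * (16 / 15)) := by
        have := hasSum_geometric_of_lt_one (r := (1 / 16 : ℝ)) (by norm_num) (by norm_num)
        have h2 : (1 - 1 / 16 : ℝ)⁻¹ = 16 / 15 := by norm_num
        rw [h2] at this
        exact this.mul_left _
      have := tsum_of_norm_bounded hgeo hterm
      rw [Real.norm_eq_abs] at this
      linarith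
    have hsplit := (hds x h).sum_add_tsum_nat_add (j + 1)
    rw [Finset.sum_range_succ] at hsplit
    rw [hdiff, ← hsplit]
    have h1 := abs_le.1 hlo
    have h2 := abs_le.1 hhi
    have hAj := hA0 j
    rcases abs_cases (F j (x + h) - F j x) with ⟨h3, -⟩ | ⟨h3, -⟩
    · rw [hj] at h3
      refine le_trans ?_ (le_abs_self _)
      linarith [h1.1, h2.1]
    · rw [hj] at h3
      refine le_trans ?_ (neg_le_abs _)
      linarith [h1.2, h2.2]
  -- conclusion
  by_contra hne
  have hlt : limsup (fun h : ℝ => ENNReal.ofReal |(f (x + h) - f x) / φ h|) (𝓝[≠] 0) < ⊤ :=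
    lt_top_iff_ne_top.2 hne
  obtain ⟨C, hC1, hC2⟩ := ENNReal.lt_iff_exists_nnreal_btwn.1 hlt
  have hev := Filter.eventually_lt_of_limsup_lt hC1
  rw [eventually_nhdsWithin_iff, Metric.eventually_nhds_iff] at hev
  obtain ⟨r, hr, H⟩ := hev
  obtain ⟨j, hj⟩ := exists_nat_ge (max (1 / r) (8 * (C : ℝ)))
  obtain ⟨h, hh1, hh2⟩ := hlow (j + 1)
  have ht1 := (hstep j).1
  have htp := htpos (j + 1)
  have hh0 : 0 < |h| := by rw [hh1]; linarith
  have hhr : |h| < r := by
    have h1 : 1 / r ≤ (j : ℝ) := (le_max_left _ _).trans hj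
    have h2 : 1 / ((j : ℝ) + 1) ≤ r := by
      rw [div_le_iff₀ (by positivity)]
      rw [div_le_iff₀ hr] at h1
      nlinarith
    rw [hh1]; linarith
  have hfin := H (y := h) (by rw [Real.dist_eq, sub_zero]; exact hhr) (by
    simpa using abs_pos.1 hh0)
  have hφh : 0 < φ h := hφ.pos h hh0 (by rw [hh1]; linarith [htδ (j + 1)])
  have hφt : φ h ≤ φ (t (j + 1)) := hφ.mono h _ hh0 (by rw [hh1, abs_of_pos htp]; linarith)
    (by rw [abs_of_pos htp]; exact htδ (j + 1))
  have hφtp : 0 < φ (t (j + 1)) := lt_of_lt_of_le hφh hφt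
  have hφj := (hstep j).2.2.2.1
  rw [div_le_div_iff₀ (hε0 _) hφtp] at hφj
  have hquot : ((j : ℝ) + 1) / 8 ≤ |(f (x + h) - f x) / φ h| := by
    rw [abs_div, abs_of_pos hφh, le_div_iff₀ hφh]
    have h1 : ((j : ℝ) + 1) * φ (t (j + 1)) ≤ A (j + 1) := by
      simp only [hA]; linarith
    have h2 : ((j : ℝ) + 1) * φ h ≤ ((j : ℝ) + 1) * φ (t (j + 1)) :=
      mul_le_mul_of_nonneg_left hφt (by positivity)
    linarith
  have hCle : (C : ℝ) ≤ |(f (x + h) - f x) / φ h| := by
    have := (le_max_right _ _).trans hj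
    linarith
  have : (C : ENNReal) ≤ ENNReal.ofReal |(f (x + h) - f x) / φ h| := by
    rw [← ENNReal.ofReal_coe_nnreal]
    exact ENNReal.ofReal_le_ofReal hCle
  exact absurd hfin (not_lt.2 this)

end

end Pool.Agent.Results.MP_a2bddf_an.Ruziewicz
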